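import Pool.Agent.H19.Wc.QStep
import Pool.Agent.H19.Wa.Dim

/-!
# Module COVER2: covering the bad set at scale `2^j`
-/

set_option autoImplicit false

namespace Pool.H19.Wc

open MeasureTheory Set Filter Pool.H19.Wa Pool.H19.Wb

theorem tail_pos (k s : ℕ) (b γ : ℝ) (hb : 1 < b) (h : Qp k s b γ) (η η' : ℝ) (hη : 0 < η)
    (hη' : 0 < η') (L : ℕ) :
    ∃ C : ℝ, 0 ≤ C ∧ ∃ j0 : ℕ, ∀ j : ℕ, j0 ≤ j →
      PP s {a | ENNReal.ofReal η' ≤ Av k s η L j a} ≤
        ENNReal.ofReal (C * (2 : ℝ) ^ (-((j : ℝ) * γ))) := by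
  obtain ⟨C, hC, j0, hj⟩ := h η hη L
  have ht : Tendsto (fun j : ℕ => (2 : ℝ) ^ ((j : ℝ) * (1 - b))) atTop (nhds 0) := by
    have h1 : Tendsto (fun j : ℕ => ((2 : ℝ) ^ (1 - b)) ^ j) atTop (nhds 0) := by
      apply tendsto_pow_atTop_nhds_zero_of_lt_one (by positivity)
      exact Real.rpow_lt_one_of_one_lt_of_neg (by norm_num) (by linarith)
    refine h1.congr fun j => ?_
    rw [← Real.rpow_natCast, ← Real.rpow_mul (by norm_num)]
    congr 1
    ring
  obtain ⟨j1, hj1⟩ := eventually_atTop.1 (ht.eventually (gt_mem_nhds hη'))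
  refine ⟨C, hC, max j0 j1, fun j hjj => ?_⟩
  have h0 : j0 ≤ j := (le_max_left _ _).trans hjj
  have h1 : j1 ≤ j := (le_max_right _ _).trans hjj
  refine (measure_mono ?_).trans (hj j h0)
  intro a (ha : ENNReal.ofReal η' ≤ Av k s η L j a)
  show ENNReal.ofReal ((2 : ℝ) ^ ((j : ℝ) * (1 - b))) < Av k s η L j a
  refine lt_of_lt_of_le ?_ ha
  rw [ENNReal.ofReal_lt_ofReal_iff hη']
  exact hj1 j h1

private theorem pow_diff2 (k : ℕ) (M a b : ℝ) (ha : 0 ≤ a) (hb : 0 ≤ b) (haM : a ≤ M)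
    (hbM : b ≤ M) : |a ^ k - b ^ k| ≤ |a - b| * k * M ^ (k - 1) := by
  refine (abs_pow_sub_pow_le a b k).trans ?_
  apply mul_le_mul_of_nonneg_left _ (by positivity)
  apply pow_le_pow_left₀ (by positivity)
  rw [abs_of_nonneg ha, abs_of_nonneg hb]
  exact max_le haM hbM

theorem nbh (k s : ℕ) (hk : 1 ≤ k) (hs : 1 ≤ s) (η : ℝ) (hη : 0 < η) (L : ℕ) :
    ∃ c : ℝ, 0 < c ∧ ∀ j : ℕ, ∀ a a' : Fin s → ℝ, (∀ i, a i ∈ Icc (0 : ℝ) 1) →
      (∀ i, a' i ∈ Icc (0 : ℝ) 1) →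
      (∀ i, |a i - a' i| ≤ c * (2 : ℝ) ^ (-((j : ℝ) * (((k : ℝ) - 1) / k)))) →
      ∀ m ∈ Icc ((2 : ℝ) ^ j) (2 ^ (j + 1)), m ∈ Zb k s η L a →
        Icc (m + η / 4) (m + η / 2) ⊆ Zb k s (η / 4) L a' := by
  have hkR : (1 : ℝ) ≤ k := by exact_mod_cast hk
  have hk0 : (0 : ℝ) < k := by linarith
  have hsR : (1 : ℝ) ≤ s := by exact_mod_cast hs
  have hs0 : (0 : ℝ) < s := by linarith
  refine ⟨η / (4 * s * k * (3 + η) ^ (k - 1)), by positivity, fun j a a' ha ha' hd m hm hmZ => ?_⟩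
  set c : ℝ := η / (4 * s * k * (3 + η) ^ (k - 1)) with hc
  set y : ℝ := (2 : ℝ) ^ ((j : ℝ) / k) with hy
  have hy1 : 1 ≤ y := Real.one_le_rpow (by norm_num) (by positivity)
  have hyk : y ^ k = 2 ^ j := by
    rw [hy, ← Real.rpow_natCast, ← Real.rpow_mul (by norm_num), div_mul_cancel₀ _ hk0.ne',
      Real.rpow_natCast]
  rintro m' ⟨hm1, hm2⟩ x hx ⟨hx1, hx2⟩
  -- bound for the variables
  have hxi : ∀ i, (x i : ℝ) + a' i ≤ (2 + η) * y := by
    intro i
    by_contra hcon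
    push Not at hcon
    have h1 : ((2 + η) * y) ^ k < ((x i : ℝ) + a' i) ^ k :=
      pow_lt_pow_left₀ hcon (by positivity) (by omega)
    have h2 : ((x i : ℝ) + a' i) ^ k ≤ ∑ i, ((x i : ℝ) + a' i) ^ k := by
      refine Finset.single_le_sum (f := fun i => ((x i : ℝ) + a' i) ^ k) (fun i _ => ?_)
        (Finset.mem_univ i)
      have := (ha' i).1
      positivity
    have h3 : (2 + η) * 2 ^ j ≤ ((2 + η) * y) ^ k := by
      rw [mul_pow, hyk]
      apply mul_le_mul_of_nonneg_right _ (by positivity)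
      exact le_self_pow₀ (by linarith) (by omega)
    have h4 : (1 : ℝ) ≤ 2 ^ j := one_le_pow₀ (by norm_num)
    have h5 : m ≤ 2 * 2 ^ j := by
      have := hm.2
      rw [pow_succ] at this
      linarith
    nlinarith
  have hD : |∑ i, ((x i : ℝ) + a i) ^ k - ∑ i, ((x i : ℝ) + a' i) ^ k| ≤ η / 4 := by
    rw [← Finset.sum_sub_distrib]
    refine (Finset.abs_sum_le_sum_abs _ _).trans ?_
    have hterm : ∀ i ∈ (Finset.univ : Finset (Fin s)),
        |((x i : ℝ) + a i) ^ k - ((x i : ℝ) + a' i) ^ k| ≤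
          (c * (2 : ℝ) ^ (-((j : ℝ) * (((k : ℝ) - 1) / k)))) * k * ((3 + η) * y) ^ (k - 1) := by
      intro i _
      have h1 := ha i
      have h2 := ha' i
      have hx0 : (0 : ℝ) ≤ x i := Nat.cast_nonneg _
      have h3 := hxi i
      refine (pow_diff2 k ((3 + η) * y) _ _ (by linarith [h1.1]) (by linarith [h2.1])
        (by nlinarith [h1.2, h2.1]) (by nlinarith)).trans ?_
      have hdiff : |((x i : ℝ) + a i) - ((x i : ℝ) + a' i)| = |a i - a' i| := by
        congr 1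
        ring
      rw [hdiff]
      have h4 : 0 ≤ ((3 + η) * y) ^ (k - 1) := by positivity
      exact mul_le_mul_of_nonneg_right (mul_le_mul_of_nonneg_right (hd i) hk0.le) h4
    refine (Finset.sum_le_sum hterm).trans ?_
    rw [Finset.sum_const, Finset.card_univ, Fintype.card_fin, nsmul_eq_mul]
    have hyk1 : y ^ (k - 1) = (2 : ℝ) ^ ((j : ℝ) * (((k : ℝ) - 1) / k)) := by
      rw [hy, ← Real.rpow_natCast, ← Real.rpow_mul (by norm_num)]
      congr 1
      rw [Nat.cast_sub hk]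
      push_cast
      ring
    rw [mul_pow, hyk1, Real.rpow_neg (by norm_num)]
    have h6 : (0 : ℝ) < (2 : ℝ) ^ ((j : ℝ) * (((k : ℝ) - 1) / k)) := by positivity
    rw [hc]
    apply le_of_eq
    field_simp
  rw [abs_le] at hD
  exact hmZ x hx ⟨by linarith [hD.1], by linarith [hD.2]⟩

/-- the counting estimate (copy of the private lemma in `Wa.Cover`) -/
theorem count2 {s : ℕ} (L : ℕ) (hL : 1 ≤ L) (F : Finset (Fin s → ℕ))
    (hF : ∀ q ∈ F, ∀ i, q i < L) (S : Set (Fin s → ℝ)) (hS : ∀ q ∈ F, cube L q ⊆ S)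
    (B : ℝ) (hB0 : 0 ≤ B) (hB : PP s S ≤ ENNReal.ofReal B) :
    (F.card : ℝ) * ((1 : ℝ) / L) ^ s ≤ B := by
  classical
  have hL0 : (0 : ℝ) < L := by exact_mod_cast hL
  let oc : (Fin s → ℕ) → Set (Fin s → ℝ) := fun q =>
    Set.pi univ (fun i => Ioo ((q i : ℝ) / L) (((q i : ℝ) + 1) / L))
  have hoc : ∀ q, oc q ⊆ cube L q := by
    intro q al hal i
    have := hal i (mem_univ i)
    exact ⟨this.1.le, this.2.le⟩
  have hmeas : ∀ q ∈ F, PP s (oc q) = ENNReal.ofReal (((1 : ℝ) / L) ^ s) := by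
    intro q hq
    have : ∀ i : Fin s, ((volume : Measure ℝ).restrict (Icc (0 : ℝ) 1))
        (Ioo ((q i : ℝ) / L) (((q i : ℝ) + 1) / L)) = ENNReal.ofReal ((1 : ℝ) / L) := by
      intro i
      rw [Measure.restrict_apply measurableSet_Ioo]
      have hsub : Ioo ((q i : ℝ) / L) (((q i : ℝ) + 1) / L) ∩ Icc (0 : ℝ) 1 =
          Ioo ((q i : ℝ) / L) (((q i : ℝ) + 1) / L) := by
        apply inter_eq_left.mpr
        intro y hy
        have h1 : (0 : ℝ) ≤ (q i : ℝ) / L := by positivity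
        have h2 : ((q i : ℝ) + 1) / L ≤ 1 := by
          rw [div_le_one hL0]
          have : q i + 1 ≤ L := hF q hq i
          exact_mod_cast this
        exact ⟨h1.trans hy.1.le, hy.2.le.trans h2⟩
      rw [hsub, Real.volume_Ioo]
      congr 1
      ring
    unfold PP
    simp only [oc]
    rw [Measure.pi_pi]
    simp only [this, Finset.prod_const, Finset.card_univ, Fintype.card_fin]
    rw [← ENNReal.ofReal_pow (by positivity)]
  have hdisj : PairwiseDisjoint (↑F : Set (Fin s → ℕ)) oc := by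
    intro q _ q' _ hne
    rw [Function.onFun, Set.disjoint_left]
    intro al h1 h2
    apply hne
    funext i
    have e1 := h1 i (mem_univ i)
    have e2 := h2 i (mem_univ i)
    have a1 : (q i : ℝ) < (q' i : ℝ) + 1 := by
      have := e1.1.trans e2.2
      rwa [div_lt_div_iff_of_pos_right hL0] at this
    have a2 : (q' i : ℝ) < (q i : ℝ) + 1 := by
      have := e2.1.trans e1.2
      rwa [div_lt_div_iff_of_pos_right hL0] at this
    have b1 : q i < q' i + 1 := by exact_mod_cast a1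
    have b2 : q' i < q i + 1 := by exact_mod_cast a2
    omega
  have hsum : PP s (⋃ q ∈ F, oc q) = ∑ q ∈ F, PP s (oc q) := by
    apply measure_biUnion_finset hdisj
    intro q _
    exact MeasurableSet.univ_pi (fun i => measurableSet_Ioo)
  have hle : PP s (⋃ q ∈ F, oc q) ≤ ENNReal.ofReal B := by
    refine (measure_mono ?_).trans hB
    apply iUnion₂_subset
    intro q hq
    exact (hoc q).trans (hS q hq)
  rw [hsum, Finset.sum_congr rfl hmeas, Finset.sum_const, nsmul_eq_mul,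
    ← ENNReal.ofReal_natCast, ← ENNReal.ofReal_mul (by positivity)] at hle
  exact (ENNReal.ofReal_le_ofReal_iff hB0).mp hle

theorem cover2 (k s : ℕ) (hk : 2 ≤ k) (hs : 1 ≤ s) (b γ : ℝ) (hb : 1 < b) (_hγ : 0 < γ)
    (h : Qp k s b γ) (η : ℝ) (hη : 0 < η) (hη1 : η ≤ 1) (L : ℕ) (d : ℝ)
    (hd : (s : ℝ) - γ * (k / ((k : ℝ) - 1)) < d) (hd' : d ≤ s) :
    ∃ C κ : ℝ, 0 < C ∧ 0 < κ ∧ ∃ N0 : ℕ, ∀ j : ℕ, N0 ≤ j →
      ∃ (L' : ℕ) (F : Finset (Fin s → ℕ)), 1 ≤ L' ∧ Ej k s η L j ⊆ ⋃ q ∈ F, cube L' q ∧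
        (1 : ℝ) / L' ≤ C * (2 : ℝ) ^ (-((j : ℝ) * κ)) ∧
        (F.card : ℝ) * ((1 : ℝ) / L') ^ d ≤ C * (2 : ℝ) ^ (-((j : ℝ) * κ)) := by
  classical
  have hkR : (2 : ℝ) ≤ k := by exact_mod_cast hk
  have hk0 : (0 : ℝ) < k := by linarith
  have hk1 : (0 : ℝ) < (k : ℝ) - 1 := by linarith
  obtain ⟨c, hc, hnbh⟩ := nbh k s (by omega) hs η hη L
  obtain ⟨C0, hC0, j0, hj0⟩ := tail_pos k s b γ hb h (η / 4) (η / 8) (by positivity)
    (by positivity) L
  set ρ : ℝ := ((k : ℝ) - 1) / k with hρ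
  have hρ0 : 0 < ρ := by positivity
  set θ : ℝ := γ - (s - d) * ρ with hθ
  have hθ0 : 0 < θ := by
    have h1 : (s : ℝ) - d < γ * (k / ((k : ℝ) - 1)) := by linarith
    have h2 : ((s : ℝ) - d) * ρ < γ * (k / ((k : ℝ) - 1)) * ρ :=
      mul_lt_mul_of_pos_right h1 hρ0
    have h3 : γ * (k / ((k : ℝ) - 1)) * ρ = γ := by
      rw [hρ]; field_simp
    rw [h3] at h2
    rw [hθ]; linarith
  set κ : ℝ := min θ ρ with hκ
  have hκ0 : 0 < κ := lt_min hθ0 hρ0
  set K : ℝ := 1 / c + 1 with hK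
  have hK0 : 0 < K := by positivity
  set B0 : ℝ := C0 * (1 + (2 : ℝ) ^ (-γ)) with hB0
  have hB00 : 0 ≤ B0 := by positivity
  refine ⟨c + B0 * K ^ ((s : ℝ) - d) + 1, κ, by positivity, hκ0, j0, fun j hj => ?_⟩
  set y : ℝ := (2 : ℝ) ^ ((j : ℝ) * ρ) with hy
  have hy1 : 1 ≤ y := Real.one_le_rpow (by norm_num) (by positivity)
  have hy0 : 0 < y := by linarith
  set L' : ℕ := ⌈y / c⌉₊ with hL'
  have hLge : y / c ≤ L' := Nat.le_ceil _
  have hL1 : 1 ≤ L' := by
    rw [hL', Nat.one_le_ceil_iff]; positivity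
  have hL0 : (0 : ℝ) < L' := by exact_mod_cast hL1
  have hLle : (L' : ℝ) ≤ K * y := by
    have h1 : (L' : ℝ) < y / c + 1 := Nat.ceil_lt_add_one (by positivity)
    rw [hK]
    have : (1 / c + 1) * y = y / c + y := by ring
    rw [this]
    linarith
  have hLinv : (1 : ℝ) / L' ≤ c * (2 : ℝ) ^ (-((j : ℝ) * ρ)) := by
    rw [Real.rpow_neg (by norm_num), ← hy]
    rw [div_le_iff₀ hL0]
    rw [div_le_iff₀ hc] at hLge
    have : c * y⁻¹ * L' = (L' * c) / y := by field_simp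
    rw [this, le_div_iff₀ hy0]
    linarith
  let F : Finset (Fin s → ℕ) :=
    (Fintype.piFinset (fun _ : Fin s => Finset.range L')).filter
      (fun q => (cube L' q ∩ Ej k s η L j).Nonempty)
  have hFL : ∀ q ∈ F, ∀ i, q i < L' := by
    intro q hq i
    have := (Finset.mem_filter.mp hq).1
    exact Finset.mem_range.mp (Fintype.mem_piFinset.mp this i)
  set S : Set (Fin s → ℝ) := {a | ENNReal.ofReal (η / 8) ≤ Av k s (η / 4) L j a} ∪
    {a | ENNReal.ofReal (η / 8) ≤ Av k s (η / 4) L (j + 1) a} with hS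
  have hunit : ∀ q ∈ F, ∀ a ∈ cube L' q, ∀ i, a i ∈ Icc (0 : ℝ) 1 := by
    intro q hq a ha i
    have h1 := ha i
    have h2 : (0 : ℝ) ≤ (q i : ℝ) / L' := by positivity
    have h3 : ((q i : ℝ) + 1) / L' ≤ 1 := by
      rw [div_le_one hL0]
      have : q i + 1 ≤ L' := hFL q hq i
      exact_mod_cast this
    exact ⟨h2.trans h1.1, h1.2.trans h3⟩
  have hFS : ∀ q ∈ F, cube L' q ⊆ S := by
    intro q hq a' ha'
    obtain ⟨a, h1, h2⟩ := (Finset.mem_filter.mp hq).2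
    obtain ⟨-, m, hm, hmZ⟩ := h2
    have hclose : ∀ i, |a i - a' i| ≤ c * (2 : ℝ) ^ (-((j : ℝ) * (((k : ℝ) - 1) / k))) := by
      intro i
      refine le_trans ?_ hLinv
      have e1 := h1 i
      have e2 := ha' i
      have h3 : ((q i : ℝ) + 1) / L' = (q i : ℝ) / L' + 1 / L' := by ring
      rw [abs_le]
      constructor <;> linarith [e1.1, e1.2, e2.1, e2.2]
    have hsub := hnbh j a a' (hunit q hq a h1) (hunit q hq a' ha') hclose m hm hmZ
    have hcov : Icc (m + η / 4) (m + η / 2) ⊆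
        (Zb k s (η / 4) L a' ∩ Icc (2 ^ j) (2 ^ (j + 1))) ∪
        (Zb k s (η / 4) L a' ∩ Icc (2 ^ (j + 1)) (2 ^ (j + 1 + 1))) := by
      intro z hz
      have hzZ := hsub hz
      have hz1 := hz.1
      have hz2 := hz.2
      have hm1 := hm.1
      have hm2 := hm.2
      rcases le_total z (2 ^ (j + 1)) with h4 | h4
      · exact Or.inl ⟨hzZ, by linarith, h4⟩
      · refine Or.inr ⟨hzZ, h4, ?_⟩
        have h5 : (1 : ℝ) ≤ 2 ^ (j + 1) := one_le_pow₀ (by norm_num)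
        have h6 : (2 : ℝ) ^ (j + 1 + 1) = 2 * 2 ^ (j + 1) := by ring
        rw [h6]
        linarith
    have hvol : ENNReal.ofReal (η / 4) ≤
        Av k s (η / 4) L j a' + Av k s (η / 4) L (j + 1) a' := by
      refine le_trans (le_of_eq ?_) ((measure_mono hcov).trans (measure_union_le _ _))
      rw [Real.volume_Icc]
      congr 1
      ring
    by_contra hcon
    rw [hS, mem_union, not_or] at hcon
    have c1 : Av k s (η / 4) L j a' < ENNReal.ofReal (η / 8) := not_le.1 hcon.1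
    have c2 : Av k s (η / 4) L (j + 1) a' < ENNReal.ofReal (η / 8) := not_le.1 hcon.2
    have c3 := ENNReal.add_lt_add c1 c2
    rw [← ENNReal.ofReal_add (by positivity) (by positivity)] at c3
    have c4 : η / 8 + η / 8 = η / 4 := by ring
    rw [c4] at c3
    exact absurd (hvol.trans_lt c3) (lt_irrefl _)
  have hPS : PP s S ≤ ENNReal.ofReal (B0 * (2 : ℝ) ^ (-((j : ℝ) * γ))) := by
    refine (measure_union_le _ _).trans ((add_le_add (hj0 j hj) (hj0 (j + 1) (by omega))).trans ?_)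
    rw [← ENNReal.ofReal_add (by positivity) (by positivity)]
    apply ENNReal.ofReal_le_ofReal
    have e1 : (2 : ℝ) ^ (-(((j + 1 : ℕ) : ℝ) * γ)) = (2 : ℝ) ^ (-γ) * (2 : ℝ) ^ (-((j : ℝ) * γ)) := by
      rw [← Real.rpow_add (by norm_num)]
      congr 1
      push_cast
      ring
    rw [e1, hB0]
    apply le_of_eq
    ring
  have hcount := count2 L' hL1 F hFL S hFS _ (by positivity) hPS
  refine ⟨L', F, hL1, ?_, ?_, ?_⟩
  · intro al hal
    have hq : ∀ i : Fin s, ∃ m : ℕ, m < L' ∧ (m : ℝ) / L' ≤ al i ∧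
        al i ≤ ((m : ℝ) + 1) / L' := by
      intro i
      have hi := hal.1 i
      have hfl := Nat.floor_le (show 0 ≤ al i * L' by have := hi.1; positivity)
      have hfl2 := Nat.lt_floor_add_one (al i * L')
      by_cases hlt : ⌊al i * L'⌋₊ < L'
      · refine ⟨⌊al i * L'⌋₊, hlt, ?_, ?_⟩
        · rw [div_le_iff₀ hL0]; exact hfl
        · rw [le_div_iff₀ hL0]; exact hfl2.le
      · push Not at hlt
        have h3 : (L' : ℝ) ≤ al i * L' := by
          have : (L' : ℝ) ≤ (⌊al i * L'⌋₊ : ℝ) := by exact_mod_cast hlt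
          linarith
        have h4 : al i = 1 := by
          have h5 : 1 ≤ al i := by
            by_contra hcon
            push Not at hcon
            nlinarith
          exact le_antisymm hi.2 h5
        refine ⟨L' - 1, by omega, ?_, ?_⟩
        · rw [h4, div_le_one hL0]
          exact_mod_cast Nat.sub_le L' 1
        · rw [h4, le_div_iff₀ hL0, Nat.cast_sub hL1]
          simp
    choose q hqL hq1 hq2 using hq
    have hmem : al ∈ cube L' q := fun i => ⟨hq1 i, hq2 i⟩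
    simp only [mem_iUnion, exists_prop]
    refine ⟨q, ?_, hmem⟩
    refine Finset.mem_filter.mpr ⟨Fintype.mem_piFinset.mpr (fun i => Finset.mem_range.mpr (hqL i)), ?_⟩
    exact ⟨al, hmem, hal⟩
  · refine hLinv.trans ?_
    have h1 : (2 : ℝ) ^ (-((j : ℝ) * ρ)) ≤ (2 : ℝ) ^ (-((j : ℝ) * κ)) := by
      apply Real.rpow_le_rpow_of_exponent_le (by norm_num)
      have h2 : κ ≤ ρ := min_le_right _ _
      have h3 : (0 : ℝ) ≤ j := Nat.cast_nonneg _
      nlinarith
    have h4 : 0 ≤ B0 * K ^ ((s : ℝ) - d) := by positivity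
    calc c * (2 : ℝ) ^ (-((j : ℝ) * ρ)) ≤ c * (2 : ℝ) ^ (-((j : ℝ) * κ)) :=
          mul_le_mul_of_nonneg_left h1 hc.le
      _ ≤ _ := mul_le_mul_of_nonneg_right (by linarith) (by positivity)
  · have hLpow : ((1 : ℝ) / L') ^ d = ((1 : ℝ) / L') ^ s * (L' : ℝ) ^ ((s : ℝ) - d) := by
      rw [one_div, Real.inv_rpow hL0.le, inv_pow, ← Real.rpow_natCast (L' : ℝ) s,
        ← Real.rpow_neg hL0.le, ← Real.rpow_neg hL0.le, ← Real.rpow_add hL0]
      congr 1
      ring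
    have hLsd : (L' : ℝ) ^ ((s : ℝ) - d) ≤ K ^ ((s : ℝ) - d) *
        (2 : ℝ) ^ ((j : ℝ) * ρ * ((s : ℝ) - d)) := by
      calc (L' : ℝ) ^ ((s : ℝ) - d) ≤ (K * y) ^ ((s : ℝ) - d) :=
            Real.rpow_le_rpow hL0.le hLle (by linarith)
        _ = _ := by
            rw [Real.mul_rpow hK0.le hy0.le, hy, ← Real.rpow_mul (by norm_num)]
    have h1 : (2 : ℝ) ^ (-((j : ℝ) * θ)) ≤ (2 : ℝ) ^ (-((j : ℝ) * κ)) := by
      apply Real.rpow_le_rpow_of_exponent_le (by norm_num)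
      have h2 : κ ≤ θ := min_le_left _ _
      have h3 : (0 : ℝ) ≤ j := Nat.cast_nonneg _
      nlinarith
    calc (F.card : ℝ) * ((1 : ℝ) / L') ^ d
        = ((F.card : ℝ) * ((1 : ℝ) / L') ^ s) * (L' : ℝ) ^ ((s : ℝ) - d) := by rw [hLpow]; ring
      _ ≤ (B0 * (2 : ℝ) ^ (-((j : ℝ) * γ))) * (K ^ ((s : ℝ) - d) *
            (2 : ℝ) ^ ((j : ℝ) * ρ * ((s : ℝ) - d))) := by
          apply mul_le_mul hcount hLsd (by positivity) (by positivity)
      _ = B0 * K ^ ((s : ℝ) - d) * (2 : ℝ) ^ (-((j : ℝ) * θ)) := by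
          have : (2 : ℝ) ^ (-((j : ℝ) * θ)) = (2 : ℝ) ^ (-((j : ℝ) * γ)) *
              (2 : ℝ) ^ ((j : ℝ) * ρ * ((s : ℝ) - d)) := by
            rw [← Real.rpow_add (by norm_num)]
            congr 1
            rw [hθ]
            ring
          rw [this]
          ring
      _ ≤ B0 * K ^ ((s : ℝ) - d) * (2 : ℝ) ^ (-((j : ℝ) * κ)) :=
          mul_le_mul_of_nonneg_left h1 (by positivity)
      _ ≤ _ := mul_le_mul_of_nonneg_right (by linarith) (by positivity)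

end Pool.H19.Wc
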