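import Pool.Agent.H19.Wb.Base

/-!
# Dimension of the exceptional shifts, any number of doublings (helper19, MP_efcac8_nt)

THEOREM. `k >= 4`, `s = s0 + t`, `s0 >= k + 1`, `2^t (s0 - k) > k`: the set of `a` in `R^s` for which not
(for all `η > 0` every large real `τ` is within `η` below a value of `∑ (x_i + a_i)^k`) has Hausdorff dimension at most
`s - (2^t (s0 - k) - k) / ((2^(t+1) - 1) (k - 1))`.

PROOF. `Qp k s b γ`: for `j` large the measure of `Zb` in `[2^j, 2^(j+1)]` is at most `2^(j(1-b))` except with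
probability `<= C 2^(-jγ)`. Base: first moment, `b + γ < (s - k)/k`. Step: `Qp k s b γ` gives `Qp k (s+1) b' γ` if
`b' + γ <= 2 b` (squaring lemma, Markov). So `Qp k (s0 + t) b γ` whenever `b + (2^(t+1)-1) γ < 2^t (s0-k)/k`, and
`b > 1` is possible for `γ < γ* = (2^t (s0-k)/k - 1)/(2^(t+1) - 1)`. Covering: the bad set at scale `2^j` is covered by
`C 2^(-jγ) L^s` cubes of side `1/L`, `L` of order `2^(j(k-1)/k)`, so its dimension is `<= s - γ k/(k-1)`.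
-/

set_option autoImplicit false

namespace Pool.H19.Wc

open MeasureTheory Set Filter Pool.H19.Wa Pool.H19.Wb

noncomputable section

/-- measure of the missed set in a dyadic window -/
def Av (k s : ℕ) (η : ℝ) (L : ℕ) (j : ℕ) (a : Fin s → ℝ) : ENNReal :=
  volume (Zb k s η L a ∩ Icc (2 ^ j) (2 ^ (j + 1)))

/-- tail bound -/
def Qp (k s : ℕ) (b γ : ℝ) : Prop :=
  ∀ η : ℝ, 0 < η → ∀ L : ℕ, ∃ C : ℝ, 0 ≤ C ∧ ∃ j0 : ℕ, ∀ j : ℕ, j0 ≤ j →
    PP s {a | ENNReal.ofReal ((2 : ℝ) ^ ((j : ℝ) * (1 - b))) < Av k s η L j a} ≤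
      ENNReal.ofReal (C * (2 : ℝ) ^ (-((j : ℝ) * γ)))

/-- bad shifts in the unit cube at scale `2^j` -/
def Ej (k s : ℕ) (η : ℝ) (L : ℕ) (j : ℕ) : Set (Fin s → ℝ) :=
  {a | (∀ i, a i ∈ Icc (0 : ℝ) 1) ∧ ∃ m ∈ Icc ((2 : ℝ) ^ j) (2 ^ (j + 1)), m ∈ Zb k s η L a}

theorem measurable_Av (k s : ℕ) (η : ℝ) (L j : ℕ) : Measurable (Av k s η L j) :=
  meas_vol k s η L measurableSet_Icc

end

end Pool.H19.Wc
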