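import Pool.Agent.H19.Wc.Cover2

/-!
# Module DIM2: Hausdorff dimension of the limsup set and of the exceptional set
-/

set_option autoImplicit false

namespace Pool.H19.Wc

open MeasureTheory Set Filter Pool.H19.Wa Pool.H19.Wb

private theorem ediam_cube2 {s : ℕ} (L : ℕ) (hL : 1 ≤ L) (q : Fin s → ℕ) :
    Metric.ediam (cube L q) ≤ ENNReal.ofReal ((1 : ℝ) / L) := by
  have hL0 : (0 : ℝ) < L := by exact_mod_cast hL
  apply Metric.ediam_le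
  intro x hx y hy
  rw [edist_dist]
  apply ENNReal.ofReal_le_ofReal
  rw [dist_pi_le_iff (by positivity)]
  intro i
  have h1 := hx i
  have h2 := hy i
  have h3 : ((q i : ℝ) + 1) / L = (q i : ℝ) / L + 1 / L := by ring
  rw [Real.dist_eq, abs_le]
  constructor <;> linarith [h1.1, h1.2, h2.1, h2.2]

theorem summable_two (C κ : ℝ) (hκ : 0 < κ) :
    Summable (fun n : ℕ => C * (2 : ℝ) ^ (-((n : ℝ) * κ))) := by
  apply Summable.mul_left
  have h1 : Summable (fun n : ℕ => ((2 : ℝ) ^ (-κ)) ^ n) := by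
    apply summable_geometric_of_lt_one (by positivity)
    exact Real.rpow_lt_one_of_one_lt_of_neg (by norm_num) (by linarith)
  refine h1.congr fun n => ?_
  rw [← Real.rpow_natCast, ← Real.rpow_mul (by norm_num)]
  congr 1
  ring

/-- limsup sets with efficient covers have measure zero -/
theorem meas_zero2 {s : ℕ} (B : ℕ → Set (Fin s → ℝ)) (d : ℝ) (hd0 : 0 < d) (C κ : ℝ) (hC : 0 < C)
    (hκ : 0 < κ) (N0 : ℕ)
    (hcov : ∀ j : ℕ, N0 ≤ j → ∃ (L' : ℕ) (F : Finset (Fin s → ℕ)), 1 ≤ L' ∧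
      B j ⊆ ⋃ q ∈ F, cube L' q ∧ (1 : ℝ) / L' ≤ C * (2 : ℝ) ^ (-((j : ℝ) * κ)) ∧
      (F.card : ℝ) * ((1 : ℝ) / L') ^ d ≤ C * (2 : ℝ) ^ (-((j : ℝ) * κ))) :
    Measure.hausdorffMeasure d {al : Fin s → ℝ | ∃ᶠ n : ℕ in atTop, al ∈ B n} = 0 := by
  classical
  have hch : ∀ n : ℕ, ∃ (L : ℕ) (F : Finset (Fin s → ℕ)), N0 ≤ n → (1 ≤ L ∧
      B n ⊆ ⋃ q ∈ F, cube L q ∧ (1 : ℝ) / L ≤ C * (2 : ℝ) ^ (-((n : ℝ) * κ)) ∧
        (F.card : ℝ) * ((1 : ℝ) / L) ^ d ≤ C * (2 : ℝ) ^ (-((n : ℝ) * κ))) := by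
    intro n
    by_cases hn : N0 ≤ n
    · obtain ⟨L, F, h⟩ := hcov n hn
      exact ⟨L, F, fun _ => h⟩
    · exact ⟨0, ∅, fun h => absurd h hn⟩
  choose L F hLF using hch
  have hsm := summable_two C κ hκ
  have hsum : ∑' n : ℕ, ENNReal.ofReal (C * (2 : ℝ) ^ (-((n : ℝ) * κ))) ≠ ⊤ := by
    rw [← ENNReal.ofReal_tsum_of_nonneg (fun n => by positivity) hsm]
    exact ENNReal.ofReal_ne_top
  have htail := ENNReal.tendsto_sum_nat_add _ hsum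
  have key := Measure.hausdorffMeasure_le_liminf_tsum (ι := fun N : ℕ => Σ m : ℕ, {q // q ∈ F (m + N)})
    d {al : Fin s → ℝ | ∃ᶠ n : ℕ in atTop, al ∈ B n} (l := atTop)
    (fun N : ℕ => ENNReal.ofReal (C * (2 : ℝ) ^ (-((N : ℝ) * κ)))) ?_
    (fun N i => cube (L (i.1 + N)) i.2.1) ?_ ?_
  · refine le_antisymm (key.trans ?_) zero_le
    have hle : ∀ᶠ N : ℕ in atTop, (∑' i : (Σ m : ℕ, {q // q ∈ F (m + N)}),
        Metric.ediam (cube (L (i.1 + N)) i.2.1) ^ d) ≤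
        ∑' m : ℕ, ENNReal.ofReal (C * (2 : ℝ) ^ (-(((m + N : ℕ) : ℝ) * κ))) := by
      filter_upwards [eventually_ge_atTop N0] with N hN
      rw [ENNReal.tsum_sigma']
      apply ENNReal.tsum_le_tsum
      intro m
      obtain ⟨hL1, -, -, hcard⟩ := hLF (m + N) (by omega)
      have hL0 : (0 : ℝ) < L (m + N) := by exact_mod_cast hL1
      rw [tsum_fintype]
      calc ∑ q : {q // q ∈ F (m + N)}, Metric.ediam (cube (L (m + N)) q.1) ^ d
          ≤ ∑ _q : {q // q ∈ F (m + N)}, ENNReal.ofReal (((1 : ℝ) / L (m + N)) ^ d) := by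
            apply Finset.sum_le_sum
            intro q _
            rw [← ENNReal.ofReal_rpow_of_nonneg (by positivity) hd0.le]
            exact ENNReal.rpow_le_rpow (ediam_cube2 _ hL1 _) hd0.le
        _ = ENNReal.ofReal ((F (m + N)).card * ((1 : ℝ) / L (m + N)) ^ d) := by
            rw [Finset.sum_const, Finset.card_univ, Fintype.card_coe, nsmul_eq_mul,
              ENNReal.ofReal_mul (by positivity), ENNReal.ofReal_natCast]
        _ ≤ _ := ENNReal.ofReal_le_ofReal hcard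
    calc liminf (fun N : ℕ => ∑' i : (Σ m : ℕ, {q // q ∈ F (m + N)}),
        Metric.ediam (cube (L (i.1 + N)) i.2.1) ^ d) atTop
        ≤ liminf (fun N : ℕ => ∑' m : ℕ, ENNReal.ofReal (C * (2 : ℝ) ^ (-(((m + N : ℕ) : ℝ) * κ))))
          atTop := liminf_le_liminf hle
      _ = 0 := htail.liminf_eq
      _ ≤ 0 := le_rfl
  · have h2 := ENNReal.tendsto_ofReal hsm.tendsto_atTop_zero
    simpa using h2
  · filter_upwards [eventually_ge_atTop N0] with N hN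
    intro i
    obtain ⟨hL1, -, hL2, -⟩ := hLF (i.1 + N) (by omega)
    refine (ediam_cube2 _ hL1 _).trans (ENNReal.ofReal_le_ofReal (hL2.trans ?_))
    apply mul_le_mul_of_nonneg_left _ hC.le
    apply Real.rpow_le_rpow_of_exponent_le (by norm_num)
    push_cast
    have h1 : (0 : ℝ) ≤ (i.1 : ℝ) := by positivity
    nlinarith
  · filter_upwards [eventually_ge_atTop N0] with N hN
    intro al hal
    have hal' : ∃ᶠ n : ℕ in atTop, al ∈ B n := hal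
    obtain ⟨n, hn1, hn2⟩ := (hal'.and_eventually (eventually_ge_atTop N)).exists
    obtain ⟨-, hcv, -, -⟩ := hLF n (by omega)
    have h1 := hcv hn1
    simp only [mem_iUnion, exists_prop] at h1
    obtain ⟨q, hq, hmem⟩ := h1
    rw [mem_iUnion]
    have hnN : n - N + N = n := by omega
    refine ⟨⟨n - N, ⟨q, ?_⟩⟩, ?_⟩
    · rw [hnN]; exact hq
    · simp only [hnN]; exact hmem

/-- the exponents -/
theorem dim_limsup2 (k s0 t : ℕ) (hk : 4 ≤ k) (hs : k + 1 ≤ s0)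
    (h : (k : ℝ) < 2 ^ t * ((s0 : ℝ) - k)) (η : ℝ) (hη : 0 < η) (hη1 : η ≤ 1) (L : ℕ) :
    dimH {al : Fin (s0 + t) → ℝ | ∃ᶠ j : ℕ in atTop, al ∈ Ej k (s0 + t) η L j} ≤
      ENNReal.ofReal (((s0 + t : ℕ) : ℝ) -
        (2 ^ t * ((s0 : ℝ) - k) - k) / ((2 ^ (t + 1) - 1) * ((k : ℝ) - 1))) := by
  have hkR : (4 : ℝ) ≤ k := by exact_mod_cast hk
  have hk0 : (0 : ℝ) < k := by linarith
  have hk1 : (0 : ℝ) < (k : ℝ) - 1 := by linarith
  have hsR : (k : ℝ) + 1 ≤ s0 := by exact_mod_cast hs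
  have h2t : (1 : ℝ) ≤ 2 ^ t := one_le_pow₀ (by norm_num)
  have h2t1 : (2 : ℝ) ^ (t + 1) = 2 * 2 ^ t := by ring
  have hA : (0 : ℝ) < 2 ^ (t + 1) - 1 := by rw [h2t1]; linarith
  set N : ℝ := 2 ^ t * ((s0 : ℝ) - k) - k with hN
  have hN0 : 0 < N := by rw [hN]; linarith
  set g : ℝ := N / (k * (2 ^ (t + 1) - 1)) with hg
  have hg0 : 0 < g := by positivity
  set d0 : ℝ := ((s0 + t : ℕ) : ℝ) - N / ((2 ^ (t + 1) - 1) * ((k : ℝ) - 1)) with hd0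
  have hgd : g * (k / ((k : ℝ) - 1)) = N / ((2 ^ (t + 1) - 1) * ((k : ℝ) - 1)) := by
    rw [hg]; field_simp
  have hd0s : d0 < ((s0 + t : ℕ) : ℝ) := by
    have : 0 < N / ((2 ^ (t + 1) - 1) * ((k : ℝ) - 1)) := by positivity
    rw [hd0]; linarith
  have hd0pos : 0 < d0 := by
    have h1 : N / ((2 ^ (t + 1) - 1) * ((k : ℝ) - 1)) < ((s0 + t : ℕ) : ℝ) := by
      rw [div_lt_iff₀ (by positivity)]
      have h3 : N < 2 ^ t * (s0 : ℝ) := by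
        rw [hN]
        have : 0 < 2 ^ t * (k : ℝ) := by positivity
        nlinarith
      have h4 : (2 : ℝ) ^ t ≤ 2 ^ (t + 1) - 1 := by rw [h2t1]; linarith
      have h5 : (2 : ℝ) ^ t ≤ (2 ^ (t + 1) - 1) * ((k : ℝ) - 1) := by nlinarith
      have h6 : (s0 : ℝ) ≤ ((s0 + t : ℕ) : ℝ) := by push_cast; linarith [Nat.cast_nonneg (α := ℝ) t]
      have h7 : (0 : ℝ) ≤ s0 := Nat.cast_nonneg _
      calc N < 2 ^ t * (s0 : ℝ) := h3
        _ ≤ ((2 ^ (t + 1) - 1) * ((k : ℝ) - 1)) * ((s0 + t : ℕ) : ℝ) :=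
            mul_le_mul h5 h6 h7 (by positivity)
        _ = _ := by ring
    rw [hd0]; linarith
  have hall : ∀ d : ℝ, d0 < d → d ≤ ((s0 + t : ℕ) : ℝ) →
      dimH {al : Fin (s0 + t) → ℝ | ∃ᶠ j : ℕ in atTop, al ∈ Ej k (s0 + t) η L j} ≤
        ENNReal.ofReal d := by
    intro d h1 h2
    -- choose γ
    have h3 : (((s0 + t : ℕ) : ℝ) - d) / (k / ((k : ℝ) - 1)) < g := by
      rw [div_lt_iff₀ (by positivity), hgd]
      rw [hd0] at h1
      linarith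
    obtain ⟨γ, hγ1, hγ2⟩ := exists_between (max_lt h3 hg0)
    have hγ3 : (((s0 + t : ℕ) : ℝ) - d) / (k / ((k : ℝ) - 1)) < γ :=
      (le_max_left _ _).trans_lt hγ1
    have hγ0 : 0 < γ := (le_max_right _ _).trans_lt hγ1
    have hγ4 : ((s0 + t : ℕ) : ℝ) - γ * (k / ((k : ℝ) - 1)) < d := by
      rw [div_lt_iff₀ (by positivity)] at hγ3
      linarith
    -- choose b
    have hb1 : (1 : ℝ) + (2 ^ (t + 1) - 1) * γ < 2 ^ t * (((s0 : ℝ) - k) / k) := by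
      have e1 : (2 ^ (t + 1) - 1) * g = 2 ^ t * (((s0 : ℝ) - k) / k) - 1 := by
        rw [hg, hN]; field_simp
      have e2 : (2 ^ (t + 1) - 1) * γ < (2 ^ (t + 1) - 1) * g := mul_lt_mul_of_pos_left hγ2 hA
      linarith
    set b : ℝ := (1 + (2 ^ t * (((s0 : ℝ) - k) / k) - (2 ^ (t + 1) - 1) * γ)) / 2 with hb
    have hbb : 1 < b := by rw [hb]; linarith
    have hb2 : b + (2 ^ (t + 1) - 1) * γ < 2 ^ t * (((s0 : ℝ) - k) / k) := by
      rw [hb]; linarith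
    have hQ := all_Q k s0 hk hs γ t b hb2
    obtain ⟨C, κ, hC, hκ, N0, hcov⟩ := cover2 k (s0 + t) (by omega) (by omega) b γ hbb hγ0 hQ
      η hη hη1 L d hγ4 h2
    have hz := meas_zero2 (fun j => Ej k (s0 + t) η L j) d (by linarith) C κ hC hκ N0 hcov
    have hdd : ((d.toNNReal : NNReal) : ℝ) = d := Real.coe_toNNReal d (by linarith)
    have : Measure.hausdorffMeasure ((d.toNNReal : NNReal) : ℝ)
        {al : Fin (s0 + t) → ℝ | ∃ᶠ j : ℕ in atTop, al ∈ Ej k (s0 + t) η L j} ≠ ⊤ := by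
      rw [hdd, hz]; exact ENNReal.zero_ne_top
    exact dimH_le_of_hausdorffMeasure_ne_top this
  have htend : Tendsto (fun d : ℝ => ENNReal.ofReal d) (nhdsWithin d0 (Ioi d0))
      (nhds (ENNReal.ofReal d0)) :=
    (ENNReal.continuous_ofReal.tendsto d0).mono_left nhdsWithin_le_nhds
  refine ge_of_tendsto htend ?_
  have hmem : Ioc d0 ((s0 + t : ℕ) : ℝ) ∈ nhdsWithin d0 (Ioi d0) := Ioc_mem_nhdsGT hd0s
  filter_upwards [hmem] with d hd
  exact hall d hd.1 hd.2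

/-- the exceptional set -/
def ExcR (k s : ℕ) : Set (Fin s → ℝ) :=
  {a | ¬ ∀ η : ℝ, 0 < η → ∃ T : ℝ, ∀ τ : ℝ, T ≤ τ → ∃ x : Fin s → ℕ,
    τ ≤ ∑ i, ((x i : ℝ) + a i) ^ k ∧ ∑ i, ((x i : ℝ) + a i) ^ k < τ + η}

theorem excR_subset (k s : ℕ) :
    ExcR k s ⊆ ⋃ n : ℕ, ⋃ m : Fin s → ℤ, (IsometryEquiv.addRight (fun i => (m i : ℝ))) ''
      {al : Fin s → ℝ | ∃ᶠ j : ℕ in atTop,
        al ∈ Ej k s (1 / ((n : ℝ) + 1)) (∑ i, (m i).natAbs) j} := by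
  intro a ha
  have ha' : ∃ η : ℝ, 0 < η ∧ ∀ T : ℝ, ∃ τ : ℝ, T ≤ τ ∧ ∀ x : Fin s → ℕ,
      ¬ (τ ≤ ∑ i, ((x i : ℝ) + a i) ^ k ∧ ∑ i, ((x i : ℝ) + a i) ^ k < τ + η) := by
    have h1 : ¬ ∀ η : ℝ, 0 < η → ∃ T : ℝ, ∀ τ : ℝ, T ≤ τ → ∃ x : Fin s → ℕ,
      τ ≤ ∑ i, ((x i : ℝ) + a i) ^ k ∧ ∑ i, ((x i : ℝ) + a i) ^ k < τ + η := ha
    push Not at h1
    obtain ⟨η, hη, h2⟩ := h1
    refine ⟨η, hη, fun T => ?_⟩
    obtain ⟨τ, hτ, h3⟩ := h2 T
    exact ⟨τ, hτ, fun x hx => absurd hx.2 (not_lt.2 (h3 x hx.1))⟩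
  obtain ⟨η, hη, hτ⟩ := ha'
  obtain ⟨n, hn⟩ := exists_nat_one_div_lt hη
  rw [mem_iUnion]
  refine ⟨n, ?_⟩
  rw [mem_iUnion]
  refine ⟨fun i => ⌊a i⌋, fun i => Int.fract (a i), ?_, ?_⟩
  · rw [mem_setOf_eq]
    rw [frequently_atTop]
    intro j0
    obtain ⟨τ, hτ1, hτ2⟩ := hτ (2 ^ j0)
    have h1τ : (1 : ℝ) ≤ τ := (one_le_pow₀ (by norm_num)).trans hτ1
    obtain ⟨j, hj1, hj2⟩ := exists_nat_pow_near h1τ (by norm_num : (1 : ℝ) < 2)
    have hjj : j0 ≤ j := by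
      by_contra hlt
      push Not at hlt
      have : (2 : ℝ) ^ (j + 1) ≤ 2 ^ j0 := pow_le_pow_right₀ (by norm_num) hlt
      linarith
    refine ⟨j, hjj, fun i => ⟨Int.fract_nonneg _, (Int.fract_lt_one _).le⟩, τ, ⟨hj1, hj2.le⟩, ?_⟩
    intro y hy hcon
    have hx : ∀ i, ((((y i : ℤ) - ⌊a i⌋).toNat : ℕ) : ℝ) + a i =
        (y i : ℝ) + Int.fract (a i) := by
      intro i
      have h1 : (⌊a i⌋).natAbs ≤ y i :=
        (Finset.single_le_sum (f := fun i => (⌊a i⌋).natAbs) (fun _ _ => Nat.zero_le _)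
          (Finset.mem_univ i)).trans (hy i)
      have h2 : ((((y i : ℤ) - ⌊a i⌋).toNat : ℕ) : ℤ) = (y i : ℤ) - ⌊a i⌋ :=
        Int.toNat_of_nonneg (by omega)
      have h3 : ((((y i : ℤ) - ⌊a i⌋).toNat : ℕ) : ℝ) = (y i : ℝ) - (⌊a i⌋ : ℝ) := by
        exact_mod_cast congrArg (fun n : ℤ => (n : ℝ)) h2
      rw [h3, Int.fract]
      ring
    apply hτ2 fun i => ((y i : ℤ) - ⌊a i⌋).toNat
    simp only [hx]
    exact ⟨hcon.1, hcon.2.trans (by linarith)⟩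
  · funext i
    show Int.fract (a i) + (⌊a i⌋ : ℝ) = a i
    exact Int.fract_add_floor (a i)

theorem dim_excR (k s0 t : ℕ) (hk : 4 ≤ k) (hs : k + 1 ≤ s0)
    (h : (k : ℝ) < 2 ^ t * ((s0 : ℝ) - k)) :
    dimH (ExcR k (s0 + t)) ≤ ENNReal.ofReal (((s0 + t : ℕ) : ℝ) -
        (2 ^ t * ((s0 : ℝ) - k) - k) / ((2 ^ (t + 1) - 1) * ((k : ℝ) - 1))) := by
  refine (dimH_mono (excR_subset k (s0 + t))).trans ?_
  rw [dimH_iUnion]
  refine iSup_le fun n => ?_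
  rw [dimH_iUnion]
  refine iSup_le fun m => ?_
  rw [IsometryEquiv.dimH_image]
  refine dim_limsup2 k s0 t hk hs h _ (by positivity) ?_ _
  rw [div_le_one (by positivity)]
  have : (0 : ℝ) ≤ n := Nat.cast_nonneg _
  linarith

end Pool.H19.Wc
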