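import Pool.Agent.H19.Wc.Defs

/-!
# Module QBASE: first moment for `s >= k + 1` variables and the base of the induction
-/

set_option autoImplicit false

namespace Pool.H19.Wc

open MeasureTheory Set Filter Pool.H19.Wa Pool.H19.Wb

theorem point_gen (k s : ℕ) (hk : 4 ≤ k) (hs : k + 1 ≤ s) (η : ℝ) (hη : 0 < η) (L : ℕ) (ε : ℝ)
    (hε : 0 < ε) :
    ∃ C : ℝ, 0 < C ∧ ∃ m0 : ℝ, 1 ≤ m0 ∧ ∀ m : ℝ, m0 ≤ m →
      PP s {a | m ∈ Zb k s η L a} ≤ ENNReal.ofReal (C * m ^ (-(((s : ℝ) - k) / k) + ε)) := by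
  have hk4 : (4 : ℝ) ≤ k := by exact_mod_cast hk
  have hk0 : (0 : ℝ) < k := by linarith
  have hsk : (k : ℝ) + 1 ≤ s := by exact_mod_cast hs
  set ε' : ℝ := min (k * ε) 1 with hε'
  have hε'0 : 0 < ε' := lt_min (by positivity) one_pos
  have hε'1 : ε' ≤ 1 := min_le_right _ _
  have hε'k : ε' / k ≤ ε := by
    rw [div_le_iff₀ hk0, mul_comm]
    exact min_le_left _ _
  obtain ⟨C, hC, P0, hP⟩ := prob2 k s hk hs (η / 2) ε' (by positivity) hε'0
  obtain ⟨c, hc, m1, hm1, hg⟩ := base_P_growth k s (by omega) (by omega) η hη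
  have E1 : ∀ᶠ m : ℝ in atTop, ((max P0 L : ℕ) : ℝ) ≤ c * m ^ ((1 : ℝ) / k) :=
    ((tendsto_rpow_atTop (by positivity : (0 : ℝ) < 1 / k)).const_mul_atTop hc).eventually_ge_atTop _
  obtain ⟨m2, hm2⟩ := eventually_atTop.mp E1
  refine ⟨C * c ^ (-((s : ℝ) - k) + ε'), by positivity, max m1 m2, le_trans hm1 (le_max_left _ _),
    fun m hm => ?_⟩
  have hmm1 : m1 ≤ m := le_trans (le_max_left _ _) hm
  have hmm2 : m2 ≤ m := le_trans (le_max_right _ _) hm
  have hm1' : 1 ≤ m := hm1.trans hmm1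
  have hm0 : 0 < m := by linarith
  have g1 := hg m hmm1
  have g2 := hm2 m hmm2
  have g3 : max P0 L ≤ base_P k s η m := by exact_mod_cast g2.trans g1
  have hPP0 : P0 ≤ base_P k s η m := (le_max_left _ _).trans g3
  have hPL : L ≤ base_P k s η m := (le_max_right _ _).trans g3
  have key := hP (base_P k s η m) hPP0 (m + η / 2)
    (base_P_lower k s (by omega) (by omega) η hη m hm0.le)
    (base_P_upper k s (by omega) (by omega) η hη m hm0.le)
  refine le_trans (measure_mono ?_) (key.trans ?_)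
  · intro a ha x hx
    have h := ha x (fun i => hPL.trans (hx i).1)
    by_contra hcon
    push Not at hcon
    rw [abs_lt] at hcon
    exact h ⟨by linarith, by linarith⟩
  · apply ENNReal.ofReal_le_ofReal
    rw [mul_assoc]
    apply mul_le_mul_of_nonneg_left _ hC.le
    have hcm : 0 < c * m ^ ((1 : ℝ) / k) := by positivity
    calc (base_P k s η m : ℝ) ^ (-((s : ℝ) - k) + ε') ≤
          (c * m ^ ((1 : ℝ) / k)) ^ (-((s : ℝ) - k) + ε') :=
          Real.rpow_le_rpow_of_nonpos hcm g1 (by linarith)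
      _ = c ^ (-((s : ℝ) - k) + ε') * m ^ ((1 : ℝ) / k * (-((s : ℝ) - k) + ε')) := by
          rw [Real.mul_rpow hc.le (by positivity), ← Real.rpow_mul hm0.le]
      _ ≤ c ^ (-((s : ℝ) - k) + ε') * m ^ (-(((s : ℝ) - k) / k) + ε) := by
          apply mul_le_mul_of_nonneg_left _ (by positivity)
          apply Real.rpow_le_rpow_of_exponent_le hm1'
          have : (1 : ℝ) / k * (-((s : ℝ) - k) + ε') = -(((s : ℝ) - k) / k) + ε' / k := by ring
          rw [this]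
          linarith

theorem int_gen (k s : ℕ) (hk : 4 ≤ k) (hs : k + 1 ≤ s) (η : ℝ) (hη : 0 < η) (L : ℕ) (β : ℝ)
    (hβ : β < ((s : ℝ) - k) / k) :
    ∃ C : ℝ, 0 < C ∧ ∃ j0 : ℕ, ∀ j : ℕ, j0 ≤ j →
      ∫⁻ a, Av k s η L j a ∂PP s ≤ ENNReal.ofReal (C * (2 : ℝ) ^ ((j : ℝ) * (1 - β))) := by
  have hk4 : (4 : ℝ) ≤ k := by exact_mod_cast hk
  have hk0 : (0 : ℝ) < k := by linarith
  have hsk : (k : ℝ) + 1 ≤ s := by exact_mod_cast hs
  have hβ0 : 0 < ((s : ℝ) - k) / k := div_pos (by linarith) hk0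
  set ε : ℝ := min (((s : ℝ) - k) / k - β) (((s : ℝ) - k) / k) with hεdef
  have hε : 0 < ε := lt_min (by linarith) hβ0
  have hε1 : ε ≤ ((s : ℝ) - k) / k - β := min_le_left _ _
  have hε2 : ε ≤ ((s : ℝ) - k) / k := min_le_right _ _
  have hneg : -(((s : ℝ) - k) / k) + ε ≤ 0 := by linarith
  have hnegβ : -(((s : ℝ) - k) / k) + ε ≤ -β := by linarith
  obtain ⟨C, hC, m0, hm0, hp⟩ := point_gen k s hk hs η hη L ε hε
  obtain ⟨j0, hj0⟩ : ∃ j0 : ℕ, m0 ≤ (2 : ℝ) ^ j0 := by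
    obtain ⟨n, hn⟩ := pow_unbounded_of_one_lt m0 (by norm_num : (1 : ℝ) < 2)
    exact ⟨n, hn.le⟩
  refine ⟨C, hC, j0, fun j hj => ?_⟩
  unfold Av
  set I : Set ℝ := Icc ((2 : ℝ) ^ j) (2 ^ (j + 1)) with hI
  have hIm : MeasurableSet I := measurableSet_Icc
  have hmeas := measurable_Zb k s η L
  have e1 : ∀ a : Fin s → ℝ, volume (Zb k s η L a ∩ I) =
      ∫⁻ m in I, (Zb k s η L a).indicator 1 m := by
    intro a
    rw [lintegral_indicator_one (measurable_Zb_sec k s η L a),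
      Measure.restrict_apply (measurable_Zb_sec k s η L a)]
  have e2 : ∀ a : Fin s → ℝ, ∀ m : ℝ, (Zb k s η L a).indicator (1 : ℝ → ENNReal) m =
      ({p : (Fin s → ℝ) × ℝ | p.2 ∈ Zb k s η L p.1}).indicator 1 (a, m) := by
    intro a m
    simp only [Set.indicator, Set.mem_ofPred_eq]
    rfl
  simp only [e1, e2]
  have : SFinite (PP s) := by unfold PP; infer_instance
  rw [lintegral_lintegral_swap]
  swap
  · exact ((measurable_one).indicator hmeas).aemeasurable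
  have e3 : ∀ m : ℝ, ∫⁻ a, ({p : (Fin s → ℝ) × ℝ | p.2 ∈ Zb k s η L p.1}).indicator
      (1 : (Fin s → ℝ) × ℝ → ENNReal) (a, m) ∂PP s =
      PP s {a | m ∈ Zb k s η L a} := by
    intro m
    have hs : MeasurableSet {a : Fin s → ℝ | m ∈ Zb k s η L a} :=
      (measurable_id.prodMk measurable_const) hmeas
    rw [← lintegral_indicator_one hs]
    rfl
  simp only [e3]
  have e4 : ∀ m ∈ I, PP s {a | m ∈ Zb k s η L a} ≤
      ENNReal.ofReal (C * (2 : ℝ) ^ ((j : ℝ) * (-β))) := by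
    intro m hm
    have h2j : (0 : ℝ) < 2 ^ j := by positivity
    have hm1 : m0 ≤ m := hj0.trans ((pow_le_pow_right₀ (by norm_num) hj).trans hm.1)
    refine (hp m hm1).trans (ENNReal.ofReal_le_ofReal ?_)
    apply mul_le_mul_of_nonneg_left _ hC.le
    calc m ^ (-(((s : ℝ) - k) / k) + ε) ≤ ((2 : ℝ) ^ j) ^ (-(((s : ℝ) - k) / k) + ε) :=
          Real.rpow_le_rpow_of_nonpos h2j hm.1 hneg
      _ = (2 : ℝ) ^ ((j : ℝ) * (-(((s : ℝ) - k) / k) + ε)) := by
          rw [← Real.rpow_natCast, ← Real.rpow_mul (by norm_num)]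
      _ ≤ (2 : ℝ) ^ ((j : ℝ) * (-β)) := by
          apply Real.rpow_le_rpow_of_exponent_le (by norm_num)
          exact mul_le_mul_of_nonneg_left hnegβ (Nat.cast_nonneg j)
  calc ∫⁻ m in I, PP s {a | m ∈ Zb k s η L a}
      ≤ ∫⁻ m in I, ENNReal.ofReal (C * (2 : ℝ) ^ ((j : ℝ) * (-β))) :=
        setLIntegral_mono measurable_const e4
    _ = ENNReal.ofReal (C * (2 : ℝ) ^ ((j : ℝ) * (-β))) * volume I := by
        rw [setLIntegral_const]
    _ = ENNReal.ofReal (C * (2 : ℝ) ^ ((j : ℝ) * (1 - β))) := by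
        rw [hI, Real.volume_Icc, ← ENNReal.ofReal_mul (by positivity)]
        congr 1
        have : (2 : ℝ) ^ (j + 1) - 2 ^ j = (2 : ℝ) ^ ((j : ℝ)) := by
          rw [Real.rpow_natCast]; ring
        rw [this, mul_assoc, ← Real.rpow_add (by norm_num)]
        congr 2
        ring

/-- Markov -/
theorem markov {Ω : Type*} [MeasurableSpace Ω] (μ : Measure Ω) (f : Ω → ENNReal)
    (hf : Measurable f) (B T : ℝ) (hT : 0 < T) (hB : 0 ≤ B)
    (h : ∫⁻ ω, f ω ∂μ ≤ ENNReal.ofReal B) :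
    μ {ω | ENNReal.ofReal T < f ω} ≤ ENNReal.ofReal (B / T) := by
  have h1 : μ {ω | ENNReal.ofReal T ≤ f ω} ≤ (∫⁻ ω, f ω ∂μ) / ENNReal.ofReal T :=
    meas_ge_le_lintegral_div hf.aemeasurable (by simpa using hT) ENNReal.ofReal_ne_top
  refine (measure_mono (fun ω (hω : ENNReal.ofReal T < f ω) => ?_)).trans (h1.trans ?_)
  · exact hω.le
  · rw [ENNReal.ofReal_div_of_pos hT]
    exact ENNReal.div_le_div_right h _

theorem base_Q (k s : ℕ) (hk : 4 ≤ k) (hs : k + 1 ≤ s) (b γ : ℝ)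
    (h : b + γ < ((s : ℝ) - k) / k) : Qp k s b γ := by
  intro η hη L
  obtain ⟨C, hC, j0, hj⟩ := int_gen k s hk hs η hη L (b + γ) h
  refine ⟨C, hC.le, j0, fun j hj' => ?_⟩
  have := markov (PP s) (Av k s η L j) (measurable_Av k s η L j) _
    ((2 : ℝ) ^ ((j : ℝ) * (1 - b))) (by positivity) (by positivity) (hj j hj')
  refine this.trans (ENNReal.ofReal_le_ofReal (le_of_eq ?_))
  rw [mul_div_assoc, ← Real.rpow_sub (by norm_num)]
  congr 2
  ring

end Pool.H19.Wc
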