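import Pool.Agent.H19.Wc.QBase
import Pool.Agent.H19.Wb.Step

/-!
# Module QSTEP: one more variable, with probabilities
-/

set_option autoImplicit false

namespace Pool.H19.Wc

open MeasureTheory Set Filter Pool.H19.Wa Pool.H19.Wb

/-- squaring with a window: only `Zb` in `[2^j, 2^(j+2)]` is used -/
theorem win_int (k s : ℕ) (hk : 2 ≤ k) (η : ℝ) (L : ℕ) (b : ℝ) :
    ∃ C : ℝ, 0 ≤ C ∧ ∃ j0 : ℕ, ∀ j : ℕ, j0 ≤ j → ∀ a : Fin s → ℝ,
      Av k s η L j a ≤ ENNReal.ofReal ((2 : ℝ) ^ ((j : ℝ) * (1 - b))) →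
      Av k s η L (j + 1) a ≤ ENNReal.ofReal ((2 : ℝ) ^ (((j + 1 : ℕ) : ℝ) * (1 - b))) →
      ∫⁻ α in Icc (0 : ℝ) 1, Av k (s + 1) η L (j + 1) (Fin.cons α a) ≤
        ENNReal.ofReal (C * (2 : ℝ) ^ (((j + 1 : ℕ) : ℝ) * (1 - 2 * b))) := by
  refine ⟨2 * 6 ^ k * ((2 : ℝ) ^ (-(1 - b)) + 1) ^ 2, by positivity, k * (6 * (L + 1)),
    fun j hj a h1 h2 => ?_⟩
  have hkR : (0 : ℝ) < k := by exact_mod_cast (by omega : 0 < k)
  set y : ℝ := (2 : ℝ) ^ ((j : ℝ) / k) with hy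
  have hy0 : 0 < y := by positivity
  have hyk : y ^ k = 2 ^ j := by
    rw [hy, ← Real.rpow_natCast, ← Real.rpow_mul (by norm_num), div_mul_cancel₀ _ hkR.ne',
      Real.rpow_natCast]
  have hybig : 6 * ((L : ℝ) + 1) ≤ y := by
    have h1 : ((6 * (L + 1) : ℕ) : ℝ) ≤ (j : ℝ) / k := by
      rw [le_div_iff₀ hkR]
      have : ((k * (6 * (L + 1)) : ℕ) : ℝ) ≤ j := by exact_mod_cast hj
      push_cast at this ⊢
      linarith
    have h2 : (2 : ℝ) ^ ((6 * (L + 1) : ℕ) : ℝ) ≤ y :=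
      Real.rpow_le_rpow_of_exponent_le (by norm_num) h1
    rw [Real.rpow_natCast] at h2
    have h3 : (6 * (L + 1)) < 2 ^ (6 * (L + 1)) := Nat.lt_two_pow_self
    have h4 : ((6 * (L + 1) : ℕ) : ℝ) ≤ 2 ^ (6 * (L + 1)) := by exact_mod_cast h3.le
    push_cast at h4
    linarith
  set U : ℕ := ⌊y / 3⌋₊ with hU
  have hU1 : (U : ℝ) ≤ y / 3 := Nat.floor_le (by positivity)
  have hU2 : y / 3 < U + 1 := Nat.lt_floor_add_one _
  have hLnn : (0 : ℝ) ≤ L := Nat.cast_nonneg _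
  have hU3 : y / 6 ≤ U := by linarith
  have hUL : L ≤ U := by
    have : (L : ℝ) ≤ U := by linarith
    exact_mod_cast this
  have hU4 : 1 ≤ U := by
    have : (1 : ℝ) ≤ U := by linarith
    exact_mod_cast this
  set Z : Set ℝ := Zb k s η L a ∩ Icc (2 ^ j) (2 ^ (j + 1 + 1)) with hZ
  have hZm : MeasurableSet Z := (measurable_Zb_sec k s η L a).inter measurableSet_Icc
  have hsub : ∀ α ∈ Icc (0 : ℝ) 1,
      Zb k (s + 1) η L (Fin.cons α a) ∩ Icc (2 ^ (j + 1)) (2 ^ (j + 1 + 1)) ⊆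
      {m : ℝ | ∀ x : ℕ, U ≤ x → x < 3 * U → m - ((x : ℝ) + α) ^ k ∈ Z} := by
    rintro α ⟨hα0, hα1⟩ m ⟨hm, hm1, hm2⟩ x hx1 hx2
    have h1 := Zb_cons k s η L (Fin.cons α a) hm x (hUL.trans hx1)
    simp only [Fin.cons_zero, Fin.cons_succ] at h1
    have hx0 : (0 : ℝ) ≤ x := Nat.cast_nonneg _
    have hpos : 0 ≤ ((x : ℝ) + α) ^ k := by positivity
    have h2 : (x : ℝ) + 1 ≤ 3 * U := by exact_mod_cast hx2
    have h3 : (x : ℝ) + α ≤ y := by linarith
    have h4 : ((x : ℝ) + α) ^ k ≤ y ^ k := pow_le_pow_left₀ (by linarith) h3 k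
    rw [hyk] at h4
    have h5 : (2 : ℝ) ^ (j + 1) = 2 * 2 ^ j := by ring
    exact ⟨h1, by linarith, by linarith⟩
  have hsq := squaring k U hk hU4 Z hZm
  have hint : ∫⁻ α in Icc (0 : ℝ) 1, Av k (s + 1) η L (j + 1) (Fin.cons α a) ≤
      ∫⁻ α in Icc (0 : ℝ) 1, volume {m : ℝ | ∀ x : ℕ, U ≤ x → x < 3 * U →
        m - ((x : ℝ) + α) ^ k ∈ Z} :=
    setLIntegral_mono' measurableSet_Icc fun α hα => measure_mono (hsub α hα)
  refine hint.trans (hsq.trans ?_)
  have hZv : volume Z ≤ ENNReal.ofReal (((2 : ℝ) ^ (-(1 - b)) + 1) *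
      (2 : ℝ) ^ (((j + 1 : ℕ) : ℝ) * (1 - b))) := by
    have hZsub : Z ⊆ (Zb k s η L a ∩ Icc (2 ^ j) (2 ^ (j + 1))) ∪
        (Zb k s η L a ∩ Icc (2 ^ (j + 1)) (2 ^ (j + 1 + 1))) := by
      rintro m ⟨hm, hm1, hm2⟩
      rcases le_total m (2 ^ (j + 1)) with h | h
      · exact Or.inl ⟨hm, hm1, h⟩
      · exact Or.inr ⟨hm, h, hm2⟩
    have h3 : volume Z ≤ Av k s η L j a + Av k s η L (j + 1) a :=
      (measure_mono hZsub).trans (measure_union_le _ _)
    refine h3.trans ((add_le_add h1 h2).trans ?_)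
    rw [← ENNReal.ofReal_add (by positivity) (by positivity)]
    apply ENNReal.ofReal_le_ofReal
    have h4 : (2 : ℝ) ^ ((j : ℝ) * (1 - b)) =
        (2 : ℝ) ^ (-(1 - b)) * (2 : ℝ) ^ (((j + 1 : ℕ) : ℝ) * (1 - b)) := by
      rw [← Real.rpow_add (by norm_num)]
      congr 1
      push_cast
      ring
    rw [h4]
    linarith
  have hUk : (0 : ℝ) < (U : ℝ) ^ k := by
    have : (0 : ℝ) < U := by exact_mod_cast hU4
    positivity
  set K : ℝ := (2 : ℝ) ^ (-(1 - b)) + 1 with hK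
  have hK0 : 0 < K := by positivity
  calc volume Z * volume Z / ENNReal.ofReal ((U : ℝ) ^ k)
      ≤ ENNReal.ofReal (K * (2 : ℝ) ^ (((j + 1 : ℕ) : ℝ) * (1 - b))) *
        ENNReal.ofReal (K * (2 : ℝ) ^ (((j + 1 : ℕ) : ℝ) * (1 - b))) /
        ENNReal.ofReal ((U : ℝ) ^ k) :=
        ENNReal.div_le_div_right (mul_le_mul' hZv hZv) _
    _ = ENNReal.ofReal ((K * (2 : ℝ) ^ (((j + 1 : ℕ) : ℝ) * (1 - b))) *
        (K * (2 : ℝ) ^ (((j + 1 : ℕ) : ℝ) * (1 - b))) / (U : ℝ) ^ k) := by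
        rw [← ENNReal.ofReal_mul (by positivity), ENNReal.ofReal_div_of_pos hUk]
    _ ≤ _ := by
        apply ENNReal.ofReal_le_ofReal
        have h5 : (2 : ℝ) ^ j / 6 ^ k ≤ (U : ℝ) ^ k := by
          rw [← hyk, ← div_pow]
          exact pow_le_pow_left₀ (by positivity) hU3 k
        have h6 : (0 : ℝ) < (2 : ℝ) ^ j / 6 ^ k := by positivity
        refine (div_le_div_of_nonneg_left (by positivity) h6 h5).trans (le_of_eq ?_)
        have e2 : (2 : ℝ) ^ (((j + 1 : ℕ) : ℝ) * (1 - 2 * b)) =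
            (2 : ℝ) ^ (((j + 1 : ℕ) : ℝ) * (1 - b)) * (2 : ℝ) ^ (((j + 1 : ℕ) : ℝ) * (1 - b)) /
            2 ^ (j + 1) := by
          rw [← Real.rpow_natCast 2 (j + 1), ← Real.rpow_add (by norm_num),
            ← Real.rpow_sub (by norm_num)]
          congr 1
          ring
        rw [e2]
        have e3 : (2 : ℝ) ^ (j + 1) = 2 * 2 ^ j := by ring
        rw [e3]
        field_simp

/-- the measure of a set of the cube by slices -/
theorem PP_slice (s : ℕ) (E : Set (Fin (s + 1) → ℝ)) (hE : MeasurableSet E) :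
    PP (s + 1) E = ∫⁻ a, ((volume : Measure ℝ).restrict (Icc (0 : ℝ) 1))
      {α | (Fin.cons α a : Fin (s + 1) → ℝ) ∈ E} ∂PP s := by
  set ν : Measure ℝ := (volume : Measure ℝ).restrict (Icc (0 : ℝ) 1) with hν
  have hmp := measurePreserving_piFinSuccAbove (fun _ : Fin (s + 1) => ν) 0
  have hSF : SFinite (PP s) := by unfold PP; infer_instance
  have hms : MeasurableSet {x : ℝ × (Fin s → ℝ) | (Fin.cons x.1 x.2 : Fin (s + 1) → ℝ) ∈ E} :=
    measurable_cons s hE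
  have h1 : PP (s + 1) E = (ν.prod (PP s)) {x : ℝ × (Fin s → ℝ) |
      (Fin.cons x.1 x.2 : Fin (s + 1) → ℝ) ∈ E} := by
    have h2 := hmp.measure_preimage hms.nullMeasurableSet
    have h3 : (MeasurableEquiv.piFinSuccAbove (fun _ : Fin (s + 1) => ℝ) 0) ⁻¹'
        {x : ℝ × (Fin s → ℝ) | (Fin.cons x.1 x.2 : Fin (s + 1) → ℝ) ∈ E} = E := by
      ext a
      have : (Fin.cons (MeasurableEquiv.piFinSuccAbove (fun _ : Fin (s + 1) => ℝ) 0 a).1
          (MeasurableEquiv.piFinSuccAbove (fun _ : Fin (s + 1) => ℝ) 0 a).2 : Fin (s + 1) → ℝ) =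
          a := by
        funext i
        refine Fin.cases ?_ (fun i => ?_) i
        · rfl
        · rfl
      simp only [mem_preimage, mem_setOf_eq, this]
    rw [h3] at h2
    exact h2
  rw [h1, Measure.prod_apply_symm hms]
  rfl

theorem step_Q (k s : ℕ) (hk : 2 ≤ k) (b b' γ : ℝ) (hb : b' + γ ≤ 2 * b)
    (h : Qp k s b γ) : Qp k (s + 1) b' γ := by
  intro η hη L
  obtain ⟨C1, hC1, j1, h1⟩ := h η hη L
  obtain ⟨C2, hC2, j2, h2⟩ := win_int k s hk η L b
  refine ⟨C1 * ((2 : ℝ) ^ γ + 1) + C2, by positivity, max j1 j2 + 1, fun j hj => ?_⟩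
  obtain ⟨i, rfl⟩ : ∃ i, j = i + 1 := ⟨j - 1, by omega⟩
  have hi1 : j1 ≤ i := by have := le_max_left j1 j2; omega
  have hi2 : j2 ≤ i := by have := le_max_right j1 j2; omega
  set T : ℝ := (2 : ℝ) ^ (((i + 1 : ℕ) : ℝ) * (1 - b')) with hT
  have hT0 : 0 < T := by positivity
  set ν : Measure ℝ := (volume : Measure ℝ).restrict (Icc (0 : ℝ) 1) with hν
  have hEm : MeasurableSet {a : Fin (s + 1) → ℝ | ENNReal.ofReal T < Av k (s + 1) η L (i + 1) a} :=
    measurableSet_lt measurable_const (measurable_Av k (s + 1) η L (i + 1))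
  rw [PP_slice s _ hEm]
  set G1 : Set (Fin s → ℝ) := {a | ENNReal.ofReal ((2 : ℝ) ^ ((i : ℝ) * (1 - b))) <
    Av k s η L i a} with hG1
  set G2 : Set (Fin s → ℝ) := {a | ENNReal.ofReal ((2 : ℝ) ^ (((i + 1 : ℕ) : ℝ) * (1 - b))) <
    Av k s η L (i + 1) a} with hG2
  have hG1m : MeasurableSet G1 := measurableSet_lt measurable_const (measurable_Av k s η L i)
  have hG2m : MeasurableSet G2 :=
    measurableSet_lt measurable_const (measurable_Av k s η L (i + 1))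
  set c : ENNReal := ENNReal.ofReal (C2 * (2 : ℝ) ^ (-(((i + 1 : ℕ) : ℝ) * γ))) with hc
  have hpt : ∀ a : Fin s → ℝ, ν {α | (Fin.cons α a : Fin (s + 1) → ℝ) ∈
      {a : Fin (s + 1) → ℝ | ENNReal.ofReal T < Av k (s + 1) η L (i + 1) a}} ≤
      (G1.indicator 1 a + G2.indicator 1 a) + c := by
    intro a
    by_cases ha1 : a ∈ G1
    · have : (1 : ENNReal) ≤ (G1.indicator 1 a + G2.indicator 1 a) + c := by
        rw [indicator_of_mem ha1]
        simp only [Pi.one_apply]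
        rw [add_assoc]
        exact le_self_add
      refine le_trans ?_ this
      refine (measure_mono (subset_univ _)).trans ?_
      rw [hν]
      simp
    by_cases ha2 : a ∈ G2
    · have : (1 : ENNReal) ≤ (G1.indicator 1 a + G2.indicator 1 a) + c := by
        rw [indicator_of_mem ha2]
        simp only [Pi.one_apply]
        rw [add_comm (G1.indicator 1 a) 1, add_assoc]
        exact le_self_add
      refine le_trans ?_ this
      refine (measure_mono (subset_univ _)).trans ?_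
      rw [hν]
      simp
    have ha1' : Av k s η L i a ≤ ENNReal.ofReal ((2 : ℝ) ^ ((i : ℝ) * (1 - b))) := not_lt.1 ha1
    have ha2' : Av k s η L (i + 1) a ≤
        ENNReal.ofReal ((2 : ℝ) ^ (((i + 1 : ℕ) : ℝ) * (1 - b))) := not_lt.1 ha2
    have h3 := h2 i hi2 a ha1' ha2'
    have h4 := markov ν (fun α => Av k (s + 1) η L (i + 1) (Fin.cons α a))
      ((measurable_Av k (s + 1) η L (i + 1)).comp
        ((measurable_cons s).comp (measurable_id.prodMk measurable_const)))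
      _ T hT0 (by positivity) h3
    refine (h4.trans (ENNReal.ofReal_le_ofReal ?_)).trans le_add_self
    rw [hT, mul_div_assoc, ← Real.rpow_sub (by norm_num)]
    apply mul_le_mul_of_nonneg_left _ hC2
    apply Real.rpow_le_rpow_of_exponent_le (by norm_num)
    have hi0 : (0 : ℝ) ≤ ((i + 1 : ℕ) : ℝ) := Nat.cast_nonneg _
    nlinarith
  refine (lintegral_mono hpt).trans ?_
  rw [lintegral_add_right _ measurable_const,
    lintegral_add_left (measurable_one.indicator hG1m), lintegral_indicator_one hG1m,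
    lintegral_indicator_one hG2m, lintegral_const]
  have hPu : PP s univ ≤ 1 := by
    unfold PP
    rw [Measure.pi_univ]
    simp
  have e1 := h1 i hi1
  have e2 := h1 (i + 1) (by omega)
  have e3 : c * PP s univ ≤ c := by
    calc c * PP s univ ≤ c * 1 := mul_le_mul' le_rfl hPu
      _ = c := mul_one c
  calc PP s G1 + PP s G2 + c * PP s univ
      ≤ ENNReal.ofReal (C1 * (2 : ℝ) ^ (-((i : ℝ) * γ))) +
        ENNReal.ofReal (C1 * (2 : ℝ) ^ (-(((i + 1 : ℕ) : ℝ) * γ))) + c :=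
        add_le_add (add_le_add e1 e2) e3
    _ = ENNReal.ofReal (C1 * (2 : ℝ) ^ (-((i : ℝ) * γ)) +
        C1 * (2 : ℝ) ^ (-(((i + 1 : ℕ) : ℝ) * γ)) +
        C2 * (2 : ℝ) ^ (-(((i + 1 : ℕ) : ℝ) * γ))) := by
        rw [hc, ← ENNReal.ofReal_add (by positivity) (by positivity),
          ← ENNReal.ofReal_add (by positivity) (by positivity)]
    _ ≤ _ := by
        apply ENNReal.ofReal_le_ofReal
        have e4 : (2 : ℝ) ^ (-((i : ℝ) * γ)) = (2 : ℝ) ^ γ * (2 : ℝ) ^ (-(((i + 1 : ℕ) : ℝ) * γ)) := by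
          rw [← Real.rpow_add (by norm_num)]
          congr 1
          push_cast
          ring
        rw [e4]
        apply le_of_eq
        ring

theorem all_Q (k s : ℕ) (hk : 4 ≤ k) (hs : k + 1 ≤ s) (γ : ℝ) (t : ℕ) :
    ∀ b : ℝ, b + (2 ^ (t + 1) - 1) * γ < 2 ^ t * (((s : ℝ) - k) / k) → Qp k (s + t) b γ := by
  induction t with
  | zero =>
    intro b hb
    have : b + γ < ((s : ℝ) - k) / k := by
      norm_num at hb
      linarith
    exact base_Q k s hk hs b γ this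
  | succ t ih =>
    intro b hb
    have h1 := ih ((b + γ) / 2) (by
      have e1 : (2 : ℝ) ^ (t + 1 + 1) = 2 * 2 ^ (t + 1) := by ring
      have e2 : (2 : ℝ) ^ (t + 1) = 2 * 2 ^ t := by ring
      rw [e1, e2] at hb
      rw [e2]
      nlinarith)
    exact step_Q k (s + t) (by omega) ((b + γ) / 2) b γ (by linarith) h1

end Pool.H19.Wc
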